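import Pool.Agent.H24.SCG.Base

/-!
Module C2H of the project SCG: case 2, the second generator cannot be inner.
-/

namespace Pool.Agent.H75.SCG

open Matrix Pool.SCG

section c2h

variable {F : Type*} [Field F]

theorem dot3' (v w : Fin 3 → F) : v ⬝ᵥ w = v 0 * w 0 + v 1 * w 1 + v 2 * w 2 := by
  simp [dotProduct, Fin.sum_univ_three]

theorem dg_mulVec' (a b c : F) (v : Fin 3 → F) :
    dg a b c *ᵥ v = ![a * v 0, b * v 1, c * v 2] := by
  funext i
  fin_cases i <;> simp [dg, mulVec, dotProduct, Fin.sum_univ_three]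

theorem isHom_h3 {e : Cor F} (he : Is e false (dg (-1) (-1) 1)) :
    IsHom e ![0, 0, 1] ![0, 0, 1] := by
  refine ⟨he.1, by simp [dot3'], ?_⟩
  rw [he.2]
  ext i j
  fin_cases i <;> fin_cases j <;> simp [dg, vecMulVec]
  norm_num

end c2h

theorem c2h_thm (hINV : INVStmt) (hHCM : HCMStmt) (hHCO : HCOStmt) : C2HStmt := by
  intro F _ _ hF a b c d e b1 b2 b3 hS hN hb
  have h2 : (2 : F) ≠ 0 := hF.1
  have hdet := hN.ha.det
  rw [dg_det] at hdet
  have hb3 : b3 ≠ 0 := by
    rintro rfl
    simp at hdet
  obtain ⟨v, f, hbh⟩ : ∃ v φ : Fin 3 → F, IsHom b v φ := by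
    rcases hINV F h2 b hS.ib.1 hS.ib.2 with h | h
    · exact h
    · rw [hb] at h; exact absurd h.1 (by simp)
  have hbe : b ≠ e := by
    rintro rfl
    exact hS.bc hS.ce.symm
  obtain ⟨hf3, hv3⟩ := hHCM F h2 b e v f _ _ hbh (isHom_h3 hN.he) hS.be hbe
  have hf3 : f 2 = 0 := by
    rw [dot3'] at hf3
    simpa using hf3
  have hv3 : v 2 = 0 := by
    rw [dot3'] at hv3
    simpa using hv3
  have hfv : f 0 * v 0 + f 1 * v 1 = 1 := by
    have := hbh.2.1
    rw [dot3', hf3] at this
    simpa using this
  -- it suffices that `B0 v` is a multiple of `f`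
  have key : ∀ t : F, dg b1 b2 b3 *ᵥ v = t • f → False := by
    intro t ht
    exact hS.ab ((hHCO F h2 b a v f _ hbh hN.ha (dg_transpose _ _ _)).2 t ht).symm
  by_cases hd : d.s = false
  · obtain ⟨w, g, hdh⟩ : ∃ v φ : Fin 3 → F, IsHom d v φ := by
      rcases hINV F h2 d hS.id.1 hS.id.2 with h | h
      · exact h
      · rw [hd] at h; exact absurd h.1 (by simp)
    have hne : b ≠ d := by
      rintro rfl
      exact hS.de hS.be
    obtain ⟨hq, hg⟩ := (hHCO F h2 d a w g _ hdh hN.ha (dg_transpose _ _ _)).1 hS.ad.symm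
    obtain ⟨h1, h1'⟩ := hHCM F h2 b d v f w g hbh hdh hS.bd hne
    rw [dot3', hf3] at h1
    rw [hg, smul_dotProduct, smul_eq_zero] at h1'
    have h1' := h1'.resolve_left (inv_ne_zero hq)
    rw [dg_mulVec', dot3', hv3] at h1'
    simp at h1'
    by_cases hw : w 0 = 0 ∧ w 1 = 0
    · obtain ⟨hw0, hw1⟩ := hw
      rw [dg_mulVec', dot3', hw0, hw1] at hq hg
      simp at hq hg
      have hw2 : w 2 ≠ 0 := hq.1
      apply hS.de
      have : d = e := by
        have hd' : Is d false (dg (-1) (-1) 1) := by
          refine ⟨hd, ?_⟩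
          rw [hdh.2.2, hg]
          ext i j
          fin_cases i <;> fin_cases j <;>
            simp [dg, vecMulVec, hw0, hw1]
          field_simp
          norm_num
        exact hd'.ext hN.he
      rw [this]
    · -- the two linear forms are proportional
      have hcross : f 0 * (b2 * v 1) - f 1 * (b1 * v 0) = 0 := by
        have e1 : w 0 * (f 0 * (b2 * v 1) - f 1 * (b1 * v 0)) = 0 := by
          linear_combination (b2 * v 1) * h1 - f 1 * h1'
        have e2 : w 1 * (f 0 * (b2 * v 1) - f 1 * (b1 * v 0)) = 0 := by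
          linear_combination -(b1 * v 0) * h1 + f 0 * h1'
        rcases mul_eq_zero.1 e1 with h | h
        · rcases mul_eq_zero.1 e2 with h' | h'
          · exact absurd ⟨h, h'⟩ hw
          · exact h'
        · exact h
      apply key (b1 * v 0 ^ 2 + b2 * v 1 ^ 2)
      rw [dg_mulVec', hv3]
      funext i
      fin_cases i
      · simp
        linear_combination -(v 1) * hcross - (b1 * v 0) * hfv
      · simp
        linear_combination (v 0) * hcross - (b2 * v 1) * hfv
      · simp [hf3]
  · have hd : d.s = true := by simpa using hd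
    -- `k = a * d` is an inner involution
    have hk2 : (a * d) * (a * d) = 1 := by
      have : (a * d) * (a * d) = (a * a) * (d * d) := by
        calc (a * d) * (a * d) = a * (d * a) * d := by group
          _ = a * (a * d) * d := by rw [hS.ad]
          _ = (a * a) * (d * d) := by group
      rw [this, hS.ia.2, hS.id.2, one_mul]
    have hk1 : a * d ≠ 1 := by
      intro h
      have : d = a := by
        calc d = (a * a) * d := by rw [hS.ia.2, one_mul]
          _ = a * (a * d) := by group
          _ = a := by rw [h, mul_one]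
      rw [this] at hS
      exact hS.de hS.ae
    have hks : (a * d).s = false := by
      rw [Cor.mul_s, hN.ha.1, hd]; rfl
    obtain ⟨w, g, hkh⟩ : ∃ v φ : Fin 3 → F, IsHom (a * d) v φ := by
      rcases hINV F h2 (a * d) hk1 hk2 with h | h
      · exact h
      · rw [hks] at h; exact absurd h.1 (by simp)
    have hka : (a * d) * a = a * (a * d) := by
      calc a * d * a = a * (d * a) := by group
        _ = a * (a * d) := by rw [hS.ad]
    obtain ⟨hq, hg⟩ := (hHCO F h2 (a * d) a w g _ hkh hN.ha (dg_transpose _ _ _)).1 hka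
    have hdk : d = a * (a * d) := by
      rw [← mul_assoc, hS.ia.2, one_mul]
    have hdm : Is d true (dg b1 b2 b3 * ((2 : F) • vecMulVec w g - 1)) := by
      have h1 := hN.ha.mul_inner (y := a * d) (B := (2 : F) • vecMulVec w g - 1)
        ⟨hks, hkh.2.2⟩
      rwa [← hdk] at h1
    have hdT := (outer_sq_iff hdm).1 hS.id.2
    obtain ⟨hq', hf⟩ := (hHCO F h2 b d v f _ hbh hdm hdT).1 hS.bd
    -- the vector `B0 K v`
    have hvec : (dg b1 b2 b3 * ((2 : F) • vecMulVec w g - 1)) *ᵥ v =
        (2 * (g ⬝ᵥ v)) • (dg b1 b2 b3 *ᵥ w) - dg b1 b2 b3 *ᵥ v := by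
      rw [← mulVec_mulVec, sub_mulVec, one_mulVec, smul_mulVec, vecMulVec_mulVec, mulVec_sub]
      congr 1
      rw [mulVec_smul]
      funext i
      simp [dg_mulVec', dot3']
      fin_cases i <;> simp <;> ring
    have h3 : b3 * (w 2 * (g ⬝ᵥ v)) = 0 := by
      have := congrFun hf 2
      rw [hf3, Pi.smul_apply] at this
      have := (smul_eq_zero.1 this.symm).resolve_left (inv_ne_zero hq')
      rw [hvec, dg_mulVec', dg_mulVec', hv3] at this
      simp at this
      rcases this with (h | h) | h
      · exact absurd h h2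
      · rw [h]; ring
      · rcases h with h | h
        · rw [h]; ring
        · rw [h]; ring
    have h3 := (mul_eq_zero.1 h3).resolve_left hb3
    rcases mul_eq_zero.1 h3 with hw | hβ
    · -- `k` commutes with `e`
      have hg2 : g 2 = 0 := by
        rw [hg, dg_mulVec']
        simp [hw]
      have hke : (a * d) * e = e * (a * d) := by
        rw [comm_inner_iff (x := a * d) (y := e) ⟨hks, hkh.2.2⟩ hN.he]
        ext i j
        fin_cases i <;> fin_cases j <;>
          simp [dg, vecMulVec, Matrix.mul_apply, Fin.sum_univ_three, hw, hg2]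
      apply hS.de
      rw [hdk]
      calc a * (a * d) * e = a * ((a * d) * e) := by group
        _ = a * (e * (a * d)) := by rw [hke]
        _ = (a * e) * (a * d) := by group
        _ = (e * a) * (a * d) := by rw [hS.ae]
        _ = e * (a * (a * d)) := by group
    · rw [hβ, mul_zero, zero_smul, zero_sub] at hvec
      apply key (-(v ⬝ᵥ ((dg b1 b2 b3 * ((2 : F) • vecMulVec w g - 1)) *ᵥ v)))
      rw [hf, smul_smul, neg_mul, mul_inv_cancel₀ hq', hvec]
      simp
end Pool.Agent.H75.SCG
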