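import Pool.Agent.H24.SCG.Base

/-!
Module EXC of the project SCG: the third intersection condition for the four generators.
-/

namespace Pool.Agent.H75.SCG

open Matrix Pool.SCG

variable {F : Type*} [Field F]

/-- diagonal elements of `Cor F` -/
def DD (x : Cor F) : Prop := ∃ s d1 d2 d3, Is x s (dg d1 d2 d3)

theorem adj_dg (a b c : F) : adjugate (dg a b c) = dg (b * c) (a * c) (a * b) := by
  ext i j
  fin_cases i <;> fin_cases j <;> simp [dg, Matrix.adjugate_fin_three]

theorem DD.one : DD (1 : Cor F) := ⟨false, 1, 1, 1, by rw [dg_one]; exact is_one⟩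

theorem DD.mul {x y : Cor F} (hx : DD x) (hy : DD y) : DD (x * y) := by
  obtain ⟨s, a, b, c, h⟩ := hx
  obtain ⟨t, a', b', c', h'⟩ := hy
  cases t with
  | false =>
    have := h.mul_inner h'
    rw [dg_mul] at this
    exact ⟨_, _, _, _, this⟩
  | true =>
    have := h.mul_outer h'
    rw [adj_dg, dg_transpose, dg_mul] at this
    exact ⟨_, _, _, _, this⟩

/-- the matrix of `b` -/
def Mb (F : Type*) [Field F] : M3 F := !![0, 0, -1; 0, -1, 0; -1, 0, 0]

/-- the matrix of `c` -/
def Mc (τ : F) : M3 F := !![0, -τ⁻¹, 0; -τ, 0, 0; 0, 0, -1]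

theorem mb_dg (a b c : F) : Mb F * dg a b c * Mb F = dg c b a := by
  ext i j
  fin_cases i <;> fin_cases j <;>
    simp [dg, Mb, Matrix.mul_apply, Fin.sum_univ_three]

theorem mb_tr : (Mb F).transpose = Mb F := by
  ext i j
  fin_cases i <;> fin_cases j <;> simp [Mb]

theorem mc_dg {τ : F} (hτ : τ ≠ 0) (a b c : F) : Mc τ * dg a b c * Mc τ = dg b a c := by
  ext i j
  fin_cases i <;> fin_cases j <;>
    simp [dg, Mc, Matrix.mul_apply, Fin.sum_univ_three] <;> field_simp

theorem mc_dg' {τ : F} (hτ : τ ≠ 0) (a b c : F) :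
    (Mc τ).transpose * dg a b c * Mc τ = dg (τ ^ 2 * b) ((τ ^ 2)⁻¹ * a) c := by
  ext i j
  fin_cases i <;> fin_cases j <;>
    simp [dg, Mc, Matrix.mul_apply, Fin.sum_univ_three] <;> field_simp

/-- conjugation of an element with an involution given by an inner element -/
theorem conj_b {b x : Cor F} (hb : Is b false (Mb F)) (hbb : b * b = 1) (hx : DD x) :
    DD (b * x * b) := by
  obtain ⟨s, a1, a2, a3, h⟩ := hx
  cases s with
  | false =>
    have := (hb.mul_inner h).mul_inner hb
    rw [mb_dg] at this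
    exact ⟨_, _, _, _, this⟩
  | true =>
    have hinv : b⁻¹ = b := inv_eq_of_mul_eq_one_left hbb
    have h1 : Is (b * (x * b)) true (Mb F * (dg a1 a2 a3 * Mb F)) := by
      have h2 := h.mul_inner hb
      have h3 := hb.mul_outer' h2 (A' := Mb F) (by
        have := (inner_sq_iff hb).1 hbb
        exact this)
      rw [mb_tr] at h3
      exact h3
    rw [← mul_assoc, ← mul_assoc, mb_dg] at h1
    exact ⟨_, _, _, _, h1⟩

theorem conj_c {τ : F} (hτ : τ ≠ 0) {c x : Cor F} (hc : Is c false (Mc τ)) (hcc : c * c = 1)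
    (hx : DD x) : DD (c * x * c) := by
  obtain ⟨s, a1, a2, a3, h⟩ := hx
  cases s with
  | false =>
    have := (hc.mul_inner h).mul_inner hc
    rw [mc_dg hτ] at this
    exact ⟨_, _, _, _, this⟩
  | true =>
    have h1 : Is (c * (x * c)) true ((Mc τ).transpose * (dg a1 a2 a3 * Mc τ)) := by
      have h2 := h.mul_inner hc
      exact hc.mul_outer' h2 (A' := Mc τ) ((inner_sq_iff hc).1 hcc)
    rw [← mul_assoc, ← mul_assoc, mc_dg' hτ] at h1
    exact ⟨_, _, _, _, h1⟩

/-- elements `y * t` with `y` in `⟨b,c⟩` and `t` diagonal -/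
def PP (b c x : Cor F) : Prop :=
  ∃ y ∈ Subgroup.closure ({b, c} : Set (Cor F)), ∃ t, DD t ∧ x = y * t

theorem conj_bc {τ : F} (hτ : τ ≠ 0) {b c : Cor F} (hb : Is b false (Mb F)) (hbb : b * b = 1)
    (hc : Is c false (Mc τ)) (hcc : c * c = 1) (y : Cor F)
    (hy : y ∈ Subgroup.closure ({b, c} : Set (Cor F))) :
    ∀ x : Cor F, DD x → DD (y⁻¹ * x * y) := by
  have hbi : b⁻¹ = b := inv_eq_of_mul_eq_one_left hbb
  have hci : c⁻¹ = c := inv_eq_of_mul_eq_one_left hcc
  induction hy using Subgroup.closure_induction'' with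
  | one => intro x hx; simpa using hx
  | mem g hg =>
    intro x hx
    rcases hg with rfl | hg
    · rw [hbi]; exact conj_b hb hbb hx
    · rw [Set.mem_singleton_iff] at hg
      subst hg
      rw [hci]; exact conj_c hτ hc hcc hx
  | inv_mem g hg =>
    intro x hx
    rcases hg with rfl | hg
    · rw [hbi, hbi]; exact conj_b hb hbb hx
    · rw [Set.mem_singleton_iff] at hg
      subst hg
      rw [hci, hci]; exact conj_c hτ hc hcc hx
  | mul g h hg hh ihg ihh =>
    intro x hx
    have := ihh _ (ihg x hx)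
    have e : h⁻¹ * (g⁻¹ * x * g) * h = (g * h)⁻¹ * x * (g * h) := by group
    rwa [e] at this

theorem abc_le {τ : F} (hτ : τ ≠ 0) {a b c d : Cor F} (hG : Gens τ a b c d)
    (haa : a * a = 1) (hbb : b * b = 1) (hcc : c * c = 1) (x : Cor F)
    (hx : x ∈ Subgroup.closure ({a, b, c} : Set (Cor F))) : PP b c x := by
  have hbi : b⁻¹ = b := inv_eq_of_mul_eq_one_left hbb
  have hci : c⁻¹ = c := inv_eq_of_mul_eq_one_left hcc
  have hai : a⁻¹ = a := inv_eq_of_mul_eq_one_left haa
  have hbm : b ∈ Subgroup.closure ({b, c} : Set (Cor F)) := Subgroup.subset_closure (by simp)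
  have hcm : c ∈ Subgroup.closure ({b, c} : Set (Cor F)) := Subgroup.subset_closure (by simp)
  have hb : Is b false (Mb F) := hG.hb
  have hc : Is c false (Mc τ) := hG.hc
  have hca : DD (c * a) := by
    have h3 := hc.mul_outer' hG.ha (A' := Mc τ) ((inner_sq_iff hc).1 hcc)
    have e : (Mc τ).transpose * !![0, -1, 0; -1, 0, 0; 0, 0, -1] = dg τ τ⁻¹ 1 := by
      ext i j
      fin_cases i <;> fin_cases j <;>
        simp [dg, Mc, Matrix.mul_apply, Fin.sum_univ_three]
    rw [e] at h3
    exact ⟨_, _, _, _, h3⟩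
  have step : ∀ g ∈ ({a, b, c} : Set (Cor F)), ∀ z, PP b c z → PP b c (g * z) := by
    intro g hg z hz
    obtain ⟨y, hy, t, ht, rfl⟩ := hz
    rcases hg with rfl | rfl | hg
    · refine ⟨c * y, mul_mem hcm hy, y⁻¹ * (c * g) * y * t,
        (conj_bc hτ hb hbb hc hcc y hy _ hca).mul ht, ?_⟩
      have : c * y * (y⁻¹ * (c * g) * y * t) = (c * c) * g * y * t := by group
      rw [this, hcc, one_mul, mul_assoc]
    · exact ⟨g * y, mul_mem hbm hy, t, ht, by rw [mul_assoc]⟩
    · rw [Set.mem_singleton_iff] at hg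
      subst hg
      exact ⟨g * y, mul_mem hcm hy, t, ht, by rw [mul_assoc]⟩
  induction hx using Subgroup.closure_induction_left with
  | one => exact ⟨1, one_mem _, 1, DD.one, by simp⟩
  | mul_left g hg y hy ih => exact step g hg y ih
  | inv_mul_cancel g hg y hy ih =>
    have : g⁻¹ = g := by
      rcases hg with rfl | rfl | hg
      · exact hai
      · exact hbi
      · rw [Set.mem_singleton_iff] at hg
        subst hg; exact hci
    rw [this]
    exact step g hg y ih

/-- the invariant form -/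
def BB (τ : F) : M3 F := !![τ ^ 2, -(τ + 1), -τ * (τ + 1); -(τ + 1), 1, -(τ + 1);
  -τ * (τ + 1), -(τ + 1), τ ^ 2]

/-- preserves the form -/
def QQ (τ : F) (x : Cor F) : Prop := ∃ A : M3 F, Is x false A ∧ A.transpose * BB τ * A = BB τ

theorem QQ.one (τ : F) : QQ τ (1 : Cor F) := ⟨1, is_one, by simp⟩

theorem QQ.mul {τ : F} {x y : Cor F} (hx : QQ τ x) (hy : QQ τ y) : QQ τ (x * y) := by
  obtain ⟨A, hA, hA'⟩ := hx
  obtain ⟨B, hB, hB'⟩ := hy
  refine ⟨A * B, hA.mul_inner hB, ?_⟩
  rw [Matrix.transpose_mul]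
  calc B.transpose * A.transpose * BB τ * (A * B)
      = B.transpose * (A.transpose * BB τ * A) * B := by simp only [mul_assoc]
    _ = BB τ := by rw [hA', hB']

theorem QQ.inv {τ : F} {x : Cor F} (hx : QQ τ x) : QQ τ x⁻¹ := by
  obtain ⟨A, hA, hA'⟩ := hx
  refine ⟨adjugate A, hA.inv_inner, ?_⟩
  have h1 : A * adjugate A = 1 := mul_adj_self hA.det
  have h2 : (adjugate A).transpose * A.transpose = 1 := by
    rw [← Matrix.transpose_mul, h1, Matrix.transpose_one]
  calc (adjugate A).transpose * BB τ * adjugate A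
      = (adjugate A).transpose * (A.transpose * BB τ * A) * adjugate A := by rw [hA']
    _ = ((adjugate A).transpose * A.transpose) * BB τ * (A * adjugate A) := by
        simp only [mul_assoc]
    _ = BB τ := by rw [h1, h2, one_mul, mul_one]

theorem qq_b {τ : F} {b : Cor F} (hb : Is b false (Mb F)) : QQ τ b := by
  refine ⟨_, hb, ?_⟩
  ext i j
  fin_cases i <;> fin_cases j <;>
    simp [BB, Mb, Matrix.mul_apply, Fin.sum_univ_three]

theorem qq_c {τ : F} (hτ : τ ≠ 0) {c : Cor F} (hc : Is c false (Mc τ)) : QQ τ c := by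
  refine ⟨_, hc, ?_⟩
  ext i j
  fin_cases i <;> fin_cases j <;>
    simp [BB, Mc, Matrix.mul_apply, Fin.sum_univ_three] <;> field_simp <;> ring

theorem qq_d {τ : F} (h3 : (3 : F) ≠ 0) {d : Cor F}
    (hd : Is d false ((2 * (3 : F)⁻¹) • !![1, 1, 1; 1, 1, 1; 1, 1, 1] - 1)) : QQ τ d := by
  refine ⟨_, hd, ?_⟩
  ext i j
  fin_cases i <;> fin_cases j <;>
    simp [BB, Matrix.mul_apply, Fin.sum_univ_three] <;> field_simp <;> ring

theorem bcd_le {τ : F} (hτ : τ ≠ 0) (h3 : (3 : F) ≠ 0) {a b c d : Cor F}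
    (hG : Gens τ a b c d) (x : Cor F)
    (hx : x ∈ Subgroup.closure ({b, c, d} : Set (Cor F))) : QQ τ x := by
  induction hx using Subgroup.closure_induction with
  | mem g hg =>
    rcases hg with rfl | rfl | hg
    · exact qq_b hG.hb
    · exact qq_c hτ hG.hc
    · rw [Set.mem_singleton_iff] at hg
      subst hg; exact qq_d h3 hG.hd
  | one => exact QQ.one τ
  | mul x y _ _ hx hy => exact hx.mul hy
  | inv x _ hx => exact hx.inv

theorem exc_thm : EXCStmt := by
  intro F _ τ hF h3 hτ hτ2 a b c d hG x hx hx'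
  have haa : a * a = 1 := by
    rw [outer_sq_iff hG.ha]
    ext i j
    fin_cases i <;> fin_cases j <;> simp
  have hbb : b * b = 1 := by
    rw [inner_sq_iff hG.hb]
    ext i j
    fin_cases i <;> fin_cases j <;> simp [Matrix.mul_apply, Fin.sum_univ_three]
  have hcc : c * c = 1 := by
    rw [inner_sq_iff hG.hc]
    ext i j
    fin_cases i <;> fin_cases j <;> simp [Matrix.mul_apply, Fin.sum_univ_three, hτ]
  obtain ⟨y, hy, t, ht, rfl⟩ := abc_le hτ hG haa hbb hcc x hx
  have hle : Subgroup.closure ({b, c} : Set (Cor F)) ≤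
      Subgroup.closure ({b, c, d} : Set (Cor F)) := by
    apply Subgroup.closure_mono
    intro z hz
    rcases hz with rfl | rfl
    · simp
    · simp
  have htm : t ∈ Subgroup.closure ({b, c, d} : Set (Cor F)) := by
    have := mul_mem (inv_mem (hle hy)) hx'
    simpa using this
  obtain ⟨A, hA, hA'⟩ := bcd_le hτ h3 hG t htm
  obtain ⟨s, d1, d2, d3, h⟩ := ht
  have hu := h.uniq hA
  obtain ⟨rfl, rfl⟩ := hu
  have hdet := h.det
  rw [dg_det] at hdet
  have hne : τ + 1 ≠ 0 := by
    intro h0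
    apply hτ2
    have : τ = -1 := by linear_combination h0
    rw [this]; ring
  have e11 := congrFun (congrFun hA' 1) 1
  have e01 := congrFun (congrFun hA' 0) 1
  have e12 := congrFun (congrFun hA' 1) 2
  simp [BB, dg, Matrix.mul_apply, Fin.sum_univ_three] at e11 e01 e12
  have q11 : d2 * d2 = 1 := by linear_combination e11
  have q01 : d1 * d2 = 1 := by
    apply mul_left_cancel₀ hne
    linear_combination -e01
  have q12 : d2 * d3 = 1 := by
    apply mul_left_cancel₀ hne
    linear_combination -e12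
  have hd3 : d3 = 1 := by
    have : d1 * d2 * d3 = d3 := by rw [q01, one_mul]
    rw [← this, hdet]
  have hd2 : d2 = 1 := by rw [hd3, mul_one] at q12; exact q12
  have hd1 : d1 = 1 := by rw [hd2, mul_one] at q01; exact q01
  subst hd1 hd2 hd3
  rw [dg_one] at h
  have : t = 1 := h.ext is_one
  rw [this, mul_one]
  exact hy

end Pool.Agent.H75.SCG
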